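import Mathlib

set_option autoImplicit false

open Filter Topology Finset
open scoped ENNReal NNReal

namespace Pool.Agent.Results.MP_0c7c8f_al.NoFinest

/-- `End(ℕ,<)`: the strictly increasing maps `ℕ → ℕ`. -/
abbrev E : Type := {f : ℕ → ℕ // StrictMono f}

/-- The multiplication of `End(ℕ,<)`: composition of maps. -/
def comp (f g : E) : E := ⟨f.1 ∘ g.1, f.2.comp g.2⟩

/-- `t` is a Polish semigroup topology on `End(ℕ,<)`: a Polish topology for which composition is
jointly continuous. -/
def IsPSG (t : TopologicalSpace E) : Prop :=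
  @PolishSpace E t ∧ @Continuous (E × E) E (@instTopologicalSpaceProd E E t t) t fun p => comp p.1 p.2

lemma gdelta {X ι : Type} [TopologicalSpace X] [PolishSpace X] [Countable ι] (i₀ : ι) (U : ι → Set X)
    (hU : ∀ i, IsOpen (U i)) : PolishSpace (⋂ i, U i : Set X) := by
  have := fun i => (hU i).polishSpace
  let φ : (⋂ i, U i : Set X) → ∀ i, U i := fun x i => ⟨x.1, Set.mem_iInter.mp x.2 i⟩
  have hc : Continuous φ := continuous_pi fun i => continuous_subtype_val.subtype_mk _
  have he : IsEmbedding φ := IsEmbedding.of_comp hc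
    (continuous_subtype_val.comp (continuous_apply i₀)) IsEmbedding.subtypeVal
  refine IsClosedEmbedding.polishSpace ⟨he, ?_⟩
  have : Set.range φ = ⋂ i, {y : ∀ i, U i | (y i).1 = (y i₀).1} := by
    ext y
    simp only [Set.mem_range, Set.mem_iInter, Set.mem_ofPred_eq]
    constructor
    · rintro ⟨x, rfl⟩ i; rfl
    · intro h
      exact ⟨⟨(y i₀).1, Set.mem_iInter.mpr fun i => h i ▸ (y i).2⟩, funext fun i => Subtype.ext (h i).symm⟩
  rw [this]
  exact isClosed_iInter fun i => isClosed_eq (continuous_subtype_val.comp (continuous_apply i))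
    (continuous_subtype_val.comp (continuous_apply i₀))

lemma polE : PolishSpace E := by
  refine IsClosed.polishSpace (s := {f : ℕ → ℕ | StrictMono f}) ?_
  have : {f : ℕ → ℕ | StrictMono f} = ⋂ n, {f | f n + 1 ≤ f (n + 1)} := by
    ext f; simp only [Set.mem_ofPred_eq, Set.mem_iInter]
    exact ⟨fun h n => h (Nat.lt_succ_self n), fun h => strictMono_nat_of_lt_succ fun n => h n⟩
  rw [this]
  exact isClosed_iInter fun n => isClosed_le (by fun_prop) (continuous_apply _)

/-- number of jumps over `m` -/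
def c (f : E) (m : ℕ) : ℕ := ((range m).filter fun n => m ≤ f.1 n).card

lemma c_cont (m : ℕ) : Continuous fun f : E => c f m := by
  simp only [c, card_filter]
  exact continuous_finsetSum _ fun n _ =>
    (continuous_of_discreteTopology (f := fun k : ℕ => if m ≤ k then 1 else 0)).comp
      ((continuous_apply n).comp continuous_subtype_val)

lemma c_left (f g : E) (m : ℕ) : c f m ≤ c (comp f g) m := by
  refine card_le_card fun n hn => ?_
  rw [mem_filter] at hn ⊢
  exact ⟨hn.1, hn.2.trans (f.2.monotone g.2.le_apply)⟩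

lemma c_right (f g : E) (m : ℕ) : c g m ≤ c (comp f g) m := by
  refine card_le_card fun n hn => ?_
  rw [mem_filter] at hn ⊢
  exact ⟨hn.1, hn.2.trans f.2.le_apply⟩

lemma c_add (f g : E) (m : ℕ) : c (comp f g) m ≤ c f m + c g m := by
  have h1 : (((range m).filter fun n => m ≤ (comp f g).1 n).filter fun n => ¬ m ≤ g.1 n).card ≤ c f m := by
    refine card_le_card_of_injOn g.1 (fun n hn => ?_) g.2.injective.injOn
    simp only [coe_filter, mem_filter, mem_range, Set.mem_ofPred_eq] at hn ⊢
    exact ⟨not_le.mp hn.2, hn.1.2⟩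
  have h2 : (((range m).filter fun n => m ≤ (comp f g).1 n).filter fun n => m ≤ g.1 n).card ≤ c g m := by
    refine card_le_card fun n hn => ?_
    simp only [mem_filter] at hn ⊢
    exact ⟨hn.1.1, hn.2⟩
  have h3 := card_filter_add_card_filter_not (s := (range m).filter fun n => m ≤ (comp f g).1 n)
    fun n => m ≤ g.1 n
  unfold c at *
  omega

/-- weighted terms -/
noncomputable def a (m : ℕ → ℕ) (f : E) (k : ℕ) : ℝ≥0∞ := (2⁻¹ : ℝ≥0∞) ^ k * (2⁻¹ ^ k * c f (m k))

/-- total weight -/
noncomputable def ρ (m : ℕ → ℕ) (f : E) : ℝ≥0∞ := ∑' k, a m f k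

/-- finite sums -/
noncomputable def s (m : ℕ → ℕ) (N : ℕ) (f : E) : ℝ≥0∞ := ∑ k ∈ range N, a m f k

variable (m : ℕ → ℕ)

lemma a_add (f g : E) (k : ℕ) : a m (comp f g) k ≤ a m f k + a m g k := by
  unfold a
  rw [← mul_add, ← mul_add]
  gcongr
  exact_mod_cast c_add f g _

lemma ρ_left (f g : E) : ρ m f ≤ ρ m (comp f g) :=
  ENNReal.tsum_le_tsum fun k => by unfold a; gcongr; exact c_left f g _

lemma ρ_right (f g : E) : ρ m g ≤ ρ m (comp f g) :=
  ENNReal.tsum_le_tsum fun k => by unfold a; gcongr; exact c_right f g _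

lemma ρ_add (f g : E) : ρ m (comp f g) ≤ ρ m f + ρ m g := by
  unfold ρ
  rw [← ENNReal.tsum_add]
  exact ENNReal.tsum_le_tsum (a_add m f g)

lemma s_ev (N : ℕ) (f : E) : ∀ᶠ g in 𝓝 f, s m N g = s m N f := by
  have : ∀ᶠ g in 𝓝 f, ∀ k ∈ range N, c g (m k) = c f (m k) := by
    rw [eventually_all_finset]
    intro k _
    exact ((c_cont (m k)).tendsto f) ((isOpen_discrete {c f (m k)}).mem_nhds rfl)
  filter_upwards [this] with g hg
  exact sum_congr rfl fun k hk => by unfold a; rw [hg k hk]

lemma ρ_lsc (q : ℝ≥0∞) : IsOpen {f : E | q < ρ m f} := by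
  rw [isOpen_iff_mem_nhds]
  intro f hf
  have h1 : q < ⨆ N, s m N f := lt_of_lt_of_eq hf ENNReal.tsum_eq_iSup_nat
  obtain ⟨N, hN⟩ := lt_iSup_iff.mp h1
  filter_upwards [s_ev m N f] with g hg
  exact lt_of_lt_of_le (hg ▸ hN) (ENNReal.sum_le_tsum _)

lemma comp_cont : Continuous fun p : E × E => comp p.1 p.2 := by
  refine Continuous.subtype_mk (continuous_pi fun n => ?_) _
  have h1 : Continuous fun q : (ℕ → ℕ) × ℕ => q.1 q.2 :=
    continuous_prod_of_discrete_right.mpr fun k => continuous_apply k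
  exact h1.comp ((continuous_subtype_val.comp continuous_fst).prodMk
    ((continuous_apply n).comp (continuous_subtype_val.comp continuous_snd)))

lemma tail_ev {X : Type} [TopologicalSpace X] (F : X → E) (hF : Continuous F)
    (hρ : Continuous fun x => ρ m (F x)) (x : X) (hx : ρ m (F x) ≠ ⊤) (ε : ℝ≥0∞) (hε : ε ≠ 0) :
    ∀ᶠ N in atTop, ∀ᶠ y in 𝓝 x, ∑' k, a m (F y) (k + N) ≤ ε := by
  have h1 : Tendsto (fun N => s m N (F x) + ε) atTop (𝓝 (ρ m (F x) + ε)) :=
    (ENNReal.tendsto_nat_tsum _).add tendsto_const_nhds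
  filter_upwards [h1.eventually (lt_mem_nhds (ENNReal.lt_add_right hx hε))] with N hN
  filter_upwards [(hρ.tendsto x).eventually (gt_mem_nhds hN), (hF.tendsto x).eventually (s_ev m N _)]
    with y h2 h3
  have h4 : s m N (F y) + ∑' k, a m (F y) (k + N) = ρ m (F y) :=
    ENNReal.summable.sum_add_tsum_nat_add'
  rw [← h4, ← h3] at h2
  exact (lt_of_add_lt_add_left h2).le

lemma ρ_cont {X : Type} [TopologicalSpace X] (F G : X → E) (hF : Continuous F) (hG : Continuous G)
    (hρF : Continuous fun x => ρ m (F x)) (hρG : Continuous fun x => ρ m (G x)) :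
    Continuous fun x => ρ m (comp (F x) (G x)) := by
  have hc : Continuous fun x => comp (F x) (G x) := comp_cont.comp (hF.prodMk hG)
  refine continuous_iff_continuousAt.mpr fun x => tendsto_order.mpr ⟨fun q hq => ?_, fun q hq => ?_⟩
  · exact ((ρ_lsc m q).preimage hc).mem_nhds hq
  · obtain ⟨r, hr, hr'⟩ := ENNReal.lt_iff_exists_add_pos_lt.mp hq
    have hfin : ρ m (comp (F x) (G x)) ≠ ⊤ := hq.ne_top
    have hε : (r : ℝ≥0∞) / 2 ≠ 0 := by simpa using hr.ne'
    obtain ⟨N, h1, h2⟩ := ((tail_ev m F hF hρF x (ne_top_of_le_ne_top hfin (ρ_left m _ _)) _ hε).and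
      (tail_ev m G hG hρG x (ne_top_of_le_ne_top hfin (ρ_right m _ _)) _ hε)).exists
    filter_upwards [h1, h2, (hc.tendsto x).eventually (s_ev m N _)] with y h1 h2 h3
    have h4 : s m N (comp (F y) (G y)) + ∑' k, a m (comp (F y) (G y)) (k + N)
        = ρ m (comp (F y) (G y)) := ENNReal.summable.sum_add_tsum_nat_add'
    refine lt_of_le_of_lt ?_ hr'
    rw [← h4, h3, ← ENNReal.add_halves (r : ℝ≥0∞)]
    refine add_le_add (ENNReal.sum_le_tsum _) (le_trans ?_ (add_le_add h1 h2))
    rw [← ENNReal.tsum_add]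
    exact ENNReal.tsum_le_tsum fun k => a_add m _ _ _

open Classical in
/-- the graph embedding -/
noncomputable def emb (f : E) : E × ℝ≥0∞ × Bool := (f, ρ m f, decide (ρ m f = ⊤))

/-- the topology attached to a sequence -/
@[reducible] noncomputable def T : TopologicalSpace E := TopologicalSpace.induced (emb m) inferInstance

lemma T_pol : @PolishSpace E (T m) := by
  classical
  have := polE
  let C : Set (E × ℝ≥0∞ × Bool) := {p | ρ m p.1 ≤ p.2.1} ∩ ({p | p.2.2 = false} ∪ {p | p.2.1 = ⊤})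
  have hC : IsClosed C := by
    refine IsClosed.inter ?_ ((isClosed_eq (by fun_prop) continuous_const).union
      (isClosed_eq (by fun_prop) continuous_const))
    rw [← isOpen_compl_iff]
    have : {p : E × ℝ≥0∞ × Bool | ρ m p.1 ≤ p.2.1}ᶜ
        = ⋃ q : ℝ≥0∞, Prod.fst ⁻¹' {f | q < ρ m f} ∩ {p | p.2.1 < q} := by
      ext p
      simp only [Set.mem_compl_iff, Set.mem_ofPred_eq, not_le, Set.mem_iUnion, Set.mem_inter_iff,
        Set.mem_preimage]
      exact ⟨fun h => (exists_between h).imp fun q hq => ⟨hq.2, hq.1⟩, fun ⟨q, h1, h2⟩ => h2.trans h1⟩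
    rw [this]
    exact isOpen_iUnion fun q => ((ρ_lsc m q).preimage continuous_fst).inter
      (isOpen_lt (by fun_prop) continuous_const)
  let r : ℚ → ℝ≥0∞ := fun q => Real.toNNReal q
  let U : ℚ × ℚ → Set (E × ℝ≥0∞ × Bool) := fun q =>
    ({_p | r q.2 ≤ r q.1} ∪ ({p | p.2.1 < r q.2} ∪ Prod.fst ⁻¹' {f | r q.1 < ρ m f}))
      ∩ ((fun p => p.2.2) ⁻¹' {true} ∪ {p | p.2.1 < ⊤})
  have hU : ∀ q, IsOpen (U q) := fun q =>
    (isOpen_const.union ((isOpen_lt (by fun_prop) continuous_const).union
      ((ρ_lsc m _).preimage continuous_fst))).inter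
      (((isOpen_discrete _).preimage (by fun_prop)).union (isOpen_lt (by fun_prop) continuous_const))
  have hP := gdelta (0, 0) U hU
  let φ : E → (⋂ q, U q : Set _) := fun f => ⟨emb m f, Set.mem_iInter.mpr fun q => ⟨by
    by_cases h1 : r q.2 ≤ r q.1
    · exact Or.inl h1
    · by_cases h2 : ρ m f < r q.2
      · exact Or.inr (Or.inl h2)
      · exact Or.inr (Or.inr (lt_of_lt_of_le (not_le.mp h1) (not_lt.mp h2))), by
    by_cases h : ρ m f = ⊤
    · exact Or.inl (decide_eq_true h)
    · exact Or.inr (lt_top_iff_ne_top.mpr h)⟩⟩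
  refine @IsClosedEmbedding.polishSpace E _ (T m) _ hP φ
    (@IsClosedEmbedding.mk E _ (T m) _ φ (@IsEmbedding.mk E _ (T m) _ φ
      (@IsInducing.mk E _ (T m) _ φ ?_) ?_) ?_)
  · exact (induced_compose (f := φ) (g := Subtype.val)).symm
  · intro f g h
    exact congrArg (fun p => p.1.1) h
  · have : Set.range φ = Subtype.val ⁻¹' C := by
      ext ⟨⟨f, t, b⟩, hp⟩
      constructor
      · rintro ⟨g, hg⟩
        rw [← hg]
        refine ⟨le_refl (ρ m g), ?_⟩
        by_cases h : ρ m g = ⊤
        · exact Or.inr h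
        · exact Or.inl (decide_eq_false h)
      · rintro ⟨h1, h2⟩
        have hp' := Set.mem_iInter.mp hp
        have h3 : ρ m f = t := by
          refine le_antisymm h1 (not_lt.mp fun h => ?_)
          obtain ⟨q, -, a1, a2⟩ := ENNReal.lt_iff_exists_rat_btwn.mp h
          obtain ⟨q', -, b1, b2⟩ := ENNReal.lt_iff_exists_rat_btwn.mp a2
          rcases (hp' (q, q')).1 with h | h | h
          · exact absurd b1 (not_lt.mpr h)
          · exact absurd b2 (not_lt.mpr (le_of_lt h))
          · exact absurd a1 (not_lt.mpr (le_of_lt h))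
        refine ⟨f, Subtype.ext (Prod.ext rfl (Prod.ext h3 ?_))⟩
        show decide (ρ m f = ⊤) = b
        rw [h3]
        cases b with
        | true =>
          rcases h2 with h2 | h2
          · exact absurd h2 (by simp)
          · exact decide_eq_true h2
        | false =>
          rcases (hp' (0, 0)).2 with h | h
          · exact absurd h (by simp)
          · exact decide_eq_false (ne_of_lt h)
    rw [this]
    exact hC.preimage continuous_subtype_val

lemma emb_cont {X : Type} [TopologicalSpace X] (F G : X → E) (hF : Continuous fun x => emb m (F x))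
    (hG : Continuous fun x => emb m (G x)) : Continuous fun x => emb m (comp (F x) (G x)) := by
  classical
  have hF1 : Continuous F := continuous_fst.comp hF
  have hG1 : Continuous G := continuous_fst.comp hG
  refine (comp_cont.comp (hF1.prodMk hG1)).prodMk
    ((ρ_cont m F G hF1 hG1 (continuous_fst.comp (continuous_snd.comp hF))
      (continuous_fst.comp (continuous_snd.comp hG))).prodMk ?_)
  have h := (continuous_of_discreteTopology (f := fun q : Bool × Bool => q.1 || q.2)).comp
    ((continuous_snd.comp (continuous_snd.comp hF)).prodMk (continuous_snd.comp (continuous_snd.comp hG)))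
  refine h.congr fun x => ?_
  simp only [Function.comp, emb]
  rw [← Bool.decide_or, decide_eq_decide]
  constructor
  · rintro (h | h)
    · exact top_le_iff.mp (h ▸ ρ_left m _ _)
    · exact top_le_iff.mp (h ▸ ρ_right m _ _)
  · intro h
    exact ENNReal.add_eq_top.mp (top_le_iff.mp (h ▸ ρ_add m _ _))

lemma T_psg : IsPSG (T m) := by
  refine ⟨T_pol m, ?_⟩
  have h0 : @Continuous E _ (T m) _ (emb m) := continuous_induced_dom
  exact continuous_induced_rng.mpr (@emb_cont m (E × E) (@instTopologicalSpaceProd E E (T m) (T m))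
    Prod.fst Prod.snd
    (@Continuous.comp _ _ _ (@instTopologicalSpaceProd E E (T m) (T m)) (T m) _ _ _ h0
      (@continuous_fst E E (T m) (T m)))
    (@Continuous.comp _ _ _ (@instTopologicalSpaceProd E E (T m) (T m)) (T m) _ _ _ h0
      (@continuous_snd E E (T m) (T m))))

lemma T_open (b : Bool) : IsOpen[T m] {f | (emb m f).2.2 = b} :=
  ⟨{p | p.2.2 = b}, (isOpen_discrete {b}).preimage (continuous_snd.comp continuous_snd), rfl⟩

lemma geo (C : ℝ≥0∞) (hC : C ≠ ⊤) : ∑' k : ℕ, (2⁻¹ : ℝ≥0∞) ^ k * C ≠ ⊤ := by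
  rw [ENNReal.tsum_mul_right, ENNReal.tsum_geometric]
  exact ENNReal.mul_ne_top (by simp) hC

lemma ρ_bdd (f : E) (C : ℕ) (h : ∀ n, c f n ≤ C) : ρ m f ≠ ⊤ := by
  refine ne_top_of_le_ne_top (geo C (by simp)) (ENNReal.tsum_le_tsum fun k => ?_)
  unfold a
  gcongr
  calc (2⁻¹ : ℝ≥0∞) ^ k * c f (m k) ≤ 1 * C := by
        gcongr
        · exact pow_le_one₀ zero_le (by simp)
        · exact h _
    _ = C := one_mul _

lemma exists_m (f : ℕ → E) : ∃ m : ℕ → ℕ, ∀ i, (∀ C, ∃ n, C ≤ c (f i) n) → ρ m (f i) = ⊤ := by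
  have : ∀ k : ℕ, ∃ n, (∀ C, ∃ n, C ≤ c (f k.unpair.1) n) → 2 ^ k * 2 ^ k ≤ c (f k.unpair.1) n := by
    intro k
    by_cases h : ∀ C, ∃ n, C ≤ c (f k.unpair.1) n
    · exact (h _).imp fun n hn _ => hn
    · exact ⟨0, fun h' => absurd h' h⟩
  choose m hm using this
  refine ⟨m, fun i hi => top_le_iff.mp ?_⟩
  have h1 : ∑' _ : ℕ, (1 : ℝ≥0∞) = ⊤ := ENNReal.tsum_const_eq_top_of_ne_zero one_ne_zero
  rw [← h1]
  refine le_trans (ENNReal.tsum_le_tsum fun j => ?_)
    (ENNReal.tsum_comp_le_tsum_of_injective (f := fun j => Nat.pair i j)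
      (fun a b h => (Nat.pair_eq_pair.mp h).2) (a m (f i)))
  have h2 := hm (Nat.pair i j) (by simpa using hi)
  rw [Nat.unpair_pair] at h2
  have h3 : ((2 : ℝ≥0∞) ^ Nat.pair i j * 2 ^ Nat.pair i j) ≤ c (f i) (m (Nat.pair i j)) := by
    exact_mod_cast h2
  have h4 : ∀ k : ℕ, (2⁻¹ : ℝ≥0∞) ^ k * 2 ^ k = 1 := fun k => by
    rw [← mul_pow, ENNReal.inv_mul_cancel (by simp) (by simp), one_pow]
  unfold a
  calc (1 : ℝ≥0∞) = 2⁻¹ ^ Nat.pair i j * (2⁻¹ ^ Nat.pair i j * (2 ^ Nat.pair i j * 2 ^ Nat.pair i j)) := by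
        rw [← mul_assoc (2⁻¹ ^ Nat.pair i j) (2 ^ Nat.pair i j), h4, one_mul, h4]
    _ ≤ _ := by gcongr

lemma exists_g : ∃ g : E, (∀ C, ∃ n, C ≤ c g n) ∧ ρ m g ≠ ⊤ := by
  let M : ℕ → ℕ := fun j => j + 1 + ∑ i ∈ range (j + 1), m i
  have hM : Monotone M := monotone_nat_of_le_succ fun j => by
    simp only [M]; rw [sum_range_succ _ (j + 1)]; omega
  let d : ℕ → ℕ := fun n => ((range (n + 1)).filter fun j => M j ≤ n).card
  have hd : Monotone d := fun n n' h => card_le_card fun j hj => by
    simp only [mem_filter, mem_range] at hj ⊢; omega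
  let g : E := ⟨fun n => n + d n, fun n n' h => Nat.add_lt_add_of_lt_of_le h (hd h.le)⟩
  refine ⟨g, fun C => ⟨M C + C, ?_⟩, ?_⟩
  · have h1 : C ≤ d (M C) := by
      calc C = (range C).card := (card_range C).symm
        _ ≤ _ := card_le_card fun j hj => by
          have hj' : j < C := mem_range.mp hj
          have h2 := hM hj'.le
          have h3 : C < M C := by simp only [M]; omega
          simp only [mem_filter, mem_range]; omega
    calc C = (Ico (M C) (M C + C)).card := by simp
      _ ≤ _ := card_le_card fun n hn => by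
        rw [mem_Ico] at hn
        have := hd hn.1
        simp only [mem_filter, mem_range, g]; omega
  · have h1 : ∀ k, c g (m k) ≤ 2 ^ k := by
      intro k
      have h2 : d (m k) ≤ k := by
        calc d (m k) ≤ (range k).card := card_le_card fun j hj => by
              rw [mem_filter] at hj
              rw [mem_range]
              by_contra h
              have h3 := hM (not_lt.mp h)
              have h4 : m k < M k := by simp only [M]; rw [sum_range_succ]; omega
              omega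
          _ = k := card_range k
      calc c g (m k) ≤ (Ico (m k - k) (m k)).card := card_le_card fun n hn => by
            simp only [mem_filter, mem_range, g] at hn
            have := hd hn.1.le
            rw [mem_Ico]; omega
        _ ≤ k := by simp; omega
        _ ≤ 2 ^ k := Nat.lt_two_pow_self.le
    refine ne_top_of_le_ne_top (geo 1 (by simp)) (ENNReal.tsum_le_tsum fun k => ?_)
    unfold a
    gcongr
    calc (2⁻¹ : ℝ≥0∞) ^ k * c g (m k) ≤ 2⁻¹ ^ k * 2 ^ k := by
          gcongr; exact_mod_cast h1 k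
      _ = 1 := by rw [← mul_pow, ENNReal.inv_mul_cancel (by simp) (by simp), one_pow]

/-- `End(ℕ,<)` has no finest Polish semigroup topology. -/
theorem result : ¬ ∃ t : TopologicalSpace E, IsPSG t ∧
    ∀ t' : TopologicalSpace E, IsPSG t' → ∀ U : Set E, IsOpen[t'] U → IsOpen[t] U := by
  classical
  rintro ⟨t, ⟨hP, -⟩, H⟩
  have : Nonempty E := ⟨⟨id, strictMono_id⟩⟩
  obtain ⟨f, hf⟩ := @TopologicalSpace.exists_dense_seq E t
    (@TopologicalSpace.SecondCountableTopology.to_separableSpace E t hP.toSecondCountableTopology) _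
  obtain ⟨m, hm⟩ := exists_m f
  obtain ⟨g, hg1, hg2⟩ := exists_g m
  obtain ⟨m', hm'⟩ := exists_m fun _ => g
  have hU := @IsOpen.inter E t _ _ (H _ (T_psg m) _ (T_open m false)) (H _ (T_psg m') _ (T_open m' true))
  obtain ⟨i, h1, h2⟩ := @DenseRange.exists_mem_open E t _ _ _ hf hU
    ⟨g, decide_eq_false hg2, decide_eq_true (hm' 0 hg1)⟩
  by_cases h : ∀ C, ∃ n, C ≤ c (f i) n
  · exact of_decide_eq_false h1 (hm i h)
  · push Not at h
    obtain ⟨C, hC⟩ := h
    exact ρ_bdd m' (f i) C (fun n => (hC n).le) (of_decide_eq_true h2)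

end Pool.Agent.Results.MP_0c7c8f_al.NoFinest
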